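import Pool.Agent.R153.HK4

set_option autoImplicit false

/-! MP_ff738c_co: all Hankel determinants of the inverse Thue-Morse series are `-1`, `0` or `1`. -/

namespace Pool.Agent.Results.MP_ff738c_co.HankelUnitBound

open PowerSeries

/-- the Prouhet-Thue-Morse series over the field with two elements -/
noncomputable def TM : PowerSeries (ZMod 2) :=
  PowerSeries.mk fun n => (((Nat.digits 2 n).sum : ℕ) : ZMod 2)

/-- the Hankel matrix `h_{p,n}` of the coefficients of `G`, regarded as the integers `0`, `1`;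
rows and columns are indexed from zero -/
noncomputable def hankel (G : PowerSeries (ZMod 2)) (p n : ℕ) : Matrix (Fin n) (Fin n) ℤ :=
  Matrix.of fun i j => (((coeff (p + (i + 1) + (j + 1) - 1) G).val : ℕ) : ℤ)

theorem hankel_eq (p n : ℕ) : hankel R153.HK.Gh p n = R153.HK.HM R153.HK.u (p + 2) n := by
  ext i j
  unfold hankel R153.HK.HM
  rw [Matrix.of_apply, Matrix.of_apply]
  have e : p + (i + 1) + (j + 1) - 1 = p + (i : ℕ) + j + 1 := by omega
  rw [e]
  unfold R153.HK.Gh
  rw [coeff_mk, if_neg (Nat.succ_ne_zero _)]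
  have e2 : p + (i : ℕ) + j + 1 + 1 = p + 2 + i + j := by omega
  rw [e2]
  unfold R153.HK.u
  rcases R153.HK.v_zero_or_one ((p + 2 + i + j) / 2) with h | h
  · rw [h]; simp
  · rw [h]
    simp only [Int.cast_one]
    rw [ZMod.val_one]
    rfl

theorem exists_inverse : ∃ G : PowerSeries (ZMod 2), constantCoeff G = 0 ∧
    PowerSeries.subst G TM = (X : PowerSeries (ZMod 2)) ∧
    PowerSeries.subst TM G = (X : PowerSeries (ZMod 2)) := by
  have h0 : TM.constantCoeff = 0 := by
    unfold TM
    simp
  have h1 : IsUnit (coeff 1 TM) := by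
    unfold TM
    simp
  refine ⟨PowerSeries.substInvOfIsUnit TM h1, ?_, ?_, ?_⟩
  · exact PowerSeries.constantCoeff_substInvOfIsUnit _ _
  · exact PowerSeries.subst_substInvOfIsUnit_right _ h0 h1
  · exact PowerSeries.subst_substInvOfIsUnit_left _ h0 h1

/-- the compositional inverse of the Thue-Morse series exists and is unique, and all its Hankel
determinants are `-1`, `0` or `1` -/
theorem result :
    (∃! G : PowerSeries (ZMod 2), constantCoeff G = 0 ∧
      PowerSeries.subst G TM = (X : PowerSeries (ZMod 2)) ∧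
      PowerSeries.subst TM G = (X : PowerSeries (ZMod 2))) ∧
    ∀ G : PowerSeries (ZMod 2), constantCoeff G = 0 →
      PowerSeries.subst G TM = (X : PowerSeries (ZMod 2)) →
      PowerSeries.subst TM G = (X : PowerSeries (ZMod 2)) →
      ∀ p n : ℕ, 1 ≤ n → (hankel G p n).det = -1 ∨ (hankel G p n).det = 0 ∨
        (hankel G p n).det = 1 := by
  constructor
  · obtain ⟨G, h0, h1, h2⟩ := exists_inverse
    refine ⟨G, ⟨h0, h1, h2⟩, ?_⟩
    rintro G' ⟨h0', h1', -⟩
    rw [R153.HK.eq_Gh G h0 h1, R153.HK.eq_Gh G' h0' h1']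
  · intro G h0 h1 _ p n _
    rw [R153.HK.eq_Gh G h0 h1, hankel_eq]
    have h := R153.HK.G_u n (p + 2)
    rw [abs_le] at h
    omega

end Pool.Agent.Results.MP_ff738c_co.HankelUnitBound
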